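import Pool.Agent.helper9.HX.Spec

/-!
# Row hx:EQP (MP_d9e35a_co): the eigen equation applied twice at a pair
-/

set_option autoImplicit false

open scoped Classical

namespace Pool.Agent.helper9.HX

open Finset
open Pool.Agent.helper65.HC (V IsEig IsTop lam)
open Pool.Agent.helper9.HQ (Fam Dn E N Le hi c)
open Pool.Agent.helper9

noncomputable section

/-- the sum over the second coordinate is at most the sum over the 4-sets -/
private theorem EQP_fix {d : ℕ} (U : Fam d) (f : Finset (Fin d) → ℝ) (x : Finset (Fin d)) (k : Fin d)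
    (hnn : ∀ y, 0 ≤ f y) (hout : ∀ y, y ∉ U → f y = 0) (hx : x.card = 2) (hk : k ∉ x) :
    ∑ q ∈ (insert k x)ᶜ, f (insert q (insert k x)) ≤ ∑ y ∈ (four x U).filter (fun y => k ∈ y), f y := by
  have h1 : ∑ q ∈ (insert k x)ᶜ, f (insert q (insert k x)) =
      ∑ q ∈ ((insert k x)ᶜ).filter (fun q => insert q (insert k x) ∈ U), f (insert q (insert k x)) := by
    rw [Finset.sum_filter]
    refine Finset.sum_congr rfl fun q hq => ?_
    by_cases h : insert q (insert k x) ∈ U
    · rw [if_pos h]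
    · rw [if_neg h, hout _ h]
  rw [h1, ← Finset.sum_image (f := fun y => f y) (g := fun q => insert q (insert k x))]
  · refine Finset.sum_le_sum_of_subset_of_nonneg ?_ (fun y _ _ => hnn y)
    intro y hy
    simp only [mem_image, mem_filter, mem_compl] at hy
    obtain ⟨q, ⟨hq, hqU⟩, rfl⟩ := hy
    have hc : (insert q (insert k x)).card = 4 := by
      rw [card_insert_of_notMem hq, card_insert_of_notMem hk, hx]
    simp only [four, mem_filter]
    refine ⟨⟨hqU, hc, ?_⟩, ?_⟩
    · exact (subset_insert _ _).trans (subset_insert _ _)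
    · exact mem_insert_of_mem (mem_insert_self _ _)
  · intro a ha b hb hab
    simp only [coe_filter, mem_compl, Set.mem_ofPred_eq] at ha hb
    simp only at hab
    have : a ∈ insert b (insert k x) := by
      rw [← hab]; exact mem_insert_self _ _
    rcases mem_insert.1 this with h | h
    · exact h
    · exact absurd h ha.1

/-- the double sum over the 4-sets -/
private theorem EQP_four {d : ℕ} (U : Fam d) (f : Finset (Fin d) → ℝ) (x : Finset (Fin d))
    (hnn : ∀ y, 0 ≤ f y) (hout : ∀ y, y ∉ U → f y = 0) (hx : x.card = 2) :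
    ∑ k ∈ xᶜ, ∑ q ∈ (insert k x)ᶜ, f (insert q (insert k x)) ≤ 2 * ∑ y ∈ four x U, f y := by
  have h1 : ∑ k ∈ xᶜ, ∑ q ∈ (insert k x)ᶜ, f (insert q (insert k x)) ≤
      ∑ k ∈ xᶜ, ∑ y ∈ (four x U).filter (fun y => k ∈ y), f y := by
    refine Finset.sum_le_sum fun k hk => ?_
    exact EQP_fix U f x k hnn hout hx (mem_compl.1 hk)
  refine h1.trans (le_of_eq ?_)
  have h2 : ∑ k ∈ xᶜ, ∑ y ∈ (four x U).filter (fun y => k ∈ y), f y =
      ∑ k ∈ xᶜ, ∑ y ∈ four x U, if k ∈ y then f y else 0 := by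
    refine Finset.sum_congr rfl fun k _ => ?_
    rw [Finset.sum_filter]
  rw [h2, Finset.sum_comm, Finset.mul_sum]
  refine Finset.sum_congr rfl fun y hy => ?_
  simp only [four, mem_filter] at hy
  rw [← Finset.sum_filter, Finset.sum_const, nsmul_eq_mul]
  have h3 : (xᶜ.filter fun k => k ∈ y) = y \ x := by
    ext k
    simp only [mem_filter, mem_compl, mem_sdiff]
    exact ⟨fun h => ⟨h.2, h.1⟩, fun h => ⟨h.2, h.1⟩⟩
  have h4 : (y \ x).card = 2 := by
    rw [card_sdiff_of_subset hy.2.2, hy.2.1, hx]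
  rw [h3, h4]
  norm_num

/-- the equation at an up-neighbour -/
private theorem EQP_up {d : ℕ} (U : Fam d) (l : ℝ) (f : Finset (Fin d) → ℝ) (x : Finset (Fin d)) (k : Fin d)
    (hP : Pf U l f) (hk : k ∉ x) :
    l * f (insert k x) ≤ (if insert k x ∈ U then f x else 0) + ∑ i ∈ x, f ((insert k x).erase i) +
      ∑ q ∈ (insert k x)ᶜ, f (insert q (insert k x)) := by
  have hnn := hP.nn
  by_cases h : insert k x ∈ U
  · rw [if_pos h, hP.eq _ h, Finset.sum_insert hk, erase_insert hk]
  · rw [if_neg h, hP.out _ h, mul_zero]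
    have h1 : 0 ≤ ∑ i ∈ x, f ((insert k x).erase i) := Finset.sum_nonneg fun i _ => hnn _
    have h2 : 0 ≤ ∑ q ∈ (insert k x)ᶜ, f (insert q (insert k x)) := Finset.sum_nonneg fun i _ => hnn _
    linarith

/-- the pairs which contain a given element -/
private theorem EQP_pair {d : ℕ} (U : Fam d) (l : ℝ) (f : Finset (Fin d) → ℝ) (x : Finset (Fin d)) (i j : Fin d)
    (hP : Pf U l f) (hxU : x ∈ U) (hij : i ≠ j) (hx : x = {i, j}) :
    ∑ k ∈ xᶜ, f ((insert k x).erase i) ≤ l * f {j} := by
  have hnn := hP.nn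
  have hjx : {j} ⊆ x := by
    rw [hx]; intro z hz; rw [mem_singleton.1 hz]; simp
  have hj : {j} ∈ U := hP.dn _ hxU _ hjx
  rw [hP.eq _ hj]
  have h1 : 0 ≤ ∑ i ∈ ({j} : Finset (Fin d)), f (({j} : Finset (Fin d)).erase i) := Finset.sum_nonneg fun i _ => hnn _
  have h2 : ∑ k ∈ xᶜ, f ((insert k x).erase i) = ∑ k ∈ xᶜ, f (insert k {j}) := by
    refine Finset.sum_congr rfl fun k hk => ?_
    have hk' : k ∉ x := mem_compl.1 hk
    have : (insert k x).erase i = insert k {j} := by
      ext z
      rw [hx] at hk' ⊢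
      simp only [mem_insert, mem_singleton, not_or] at hk'
      simp only [mem_erase, mem_insert, mem_singleton]
      constructor
      · rintro ⟨h, h' | h' | h'⟩
        · exact Or.inl h'
        · exact absurd h' h
        · exact Or.inr h'
      · rintro (h' | h')
        · exact ⟨by rw [h']; exact hk'.1, Or.inl h'⟩
        · exact ⟨by rw [h']; exact hij.symm, Or.inr (Or.inr h')⟩
    rw [this]
  rw [h2]
  have h3 : ∑ k ∈ xᶜ, f (insert k {j}) ≤ ∑ k ∈ ({j} : Finset (Fin d))ᶜ, f (insert k {j}) := by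
    refine Finset.sum_le_sum_of_subset_of_nonneg (compl_subset_compl.2 hjx) (fun y _ _ => hnn _)
  linarith

theorem EQP : EQP_stmt := by
  intro d U l f x hP hl hxU hx
  have hnn := hP.nn
  obtain ⟨i, j, hij, hxe⟩ := card_eq_two.1 hx
  have hE := hP.eq x hxU
  -- the down neighbours
  have hD : ∑ i ∈ x, f (x.erase i) = ∑ i ∈ x, f {i} := by
    have e1 : x.erase i = {j} := by
      rw [hxe]; ext z; simp only [mem_erase, mem_insert, mem_singleton]
      constructor
      · rintro ⟨h, h' | h'⟩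
        · exact absurd h' h
        · exact h'
      · rintro h; exact ⟨by rw [h]; exact hij.symm, Or.inr h⟩
    have e2 : x.erase j = {i} := by
      rw [hxe]; ext z; simp only [mem_erase, mem_insert, mem_singleton]
      constructor
      · rintro ⟨h, h' | h'⟩
        · exact h'
        · exact absurd h' h
      · rintro h; exact ⟨by rw [h]; exact hij, Or.inl h⟩
    have s1 : ∑ i ∈ x, f (x.erase i) = f (x.erase i) + f (x.erase j) := by
      conv_lhs => rw [show (x : Finset (Fin d)) = {i, j} from hxe]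
      rw [Finset.sum_pair hij, ← hxe]
    have s2 : ∑ i ∈ x, f {i} = f {i} + f {j} := by
      rw [hxe, Finset.sum_pair hij]
    rw [s1, s2, e1, e2]; ring
  -- the up neighbours
  have hU1 : ∑ k ∈ xᶜ, l * f (insert k x) ≤ ∑ k ∈ xᶜ, ((if insert k x ∈ U then f x else 0) +
      ∑ i ∈ x, f ((insert k x).erase i) + ∑ q ∈ (insert k x)ᶜ, f (insert q (insert k x))) := by
    refine Finset.sum_le_sum fun k hk => EQP_up U l f x k hP (mem_compl.1 hk)
  rw [Finset.sum_add_distrib, Finset.sum_add_distrib] at hU1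
  have hU2 : ∑ k ∈ xᶜ, (if insert k x ∈ U then f x else 0) = up x U * f x := by
    rw [← Finset.sum_filter, Finset.sum_const, nsmul_eq_mul]
    have : (xᶜ.filter fun k => insert k x ∈ U) = univ.filter fun k => k ∉ x ∧ insert k x ∈ U := by
      ext k; simp only [mem_filter, mem_compl, mem_univ, true_and]
    rw [this]; rfl
  have hU3 : ∑ k ∈ xᶜ, ∑ i ∈ x, f ((insert k x).erase i) ≤ l * ∑ i ∈ x, f {i} := by
    rw [Finset.sum_comm]
    have s1 : ∑ y ∈ x, ∑ k ∈ xᶜ, f ((insert k x).erase y) =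
        ∑ k ∈ xᶜ, f ((insert k x).erase i) + ∑ k ∈ xᶜ, f ((insert k x).erase j) := by
      have : ∀ g : Fin d → ℝ, ∑ y ∈ x, g y = g i + g j := by
        intro g; rw [hxe, Finset.sum_pair hij]
      exact this fun y => ∑ k ∈ xᶜ, f ((insert k x).erase y)
    have s2 : ∑ i ∈ x, f {i} = f {i} + f {j} := by
      rw [hxe, Finset.sum_pair hij]
    have t1 := EQP_pair U l f x i j hP hxU hij hxe
    have t2 := EQP_pair U l f x j i hP hxU hij.symm (by rw [hxe, pair_comm])
    rw [s1, s2]
    linarith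
  have hU4 := EQP_four U f x hnn hP.out hx
  rw [hD] at hE
  have hE2 : l ^ 2 * f x = l * ∑ i ∈ x, f {i} + ∑ k ∈ xᶜ, l * f (insert k x) := by
    rw [← Finset.mul_sum, ← mul_add, ← hE]; ring
  rw [hU2] at hU1
  have : (l ^ 2 - up x U) * f x = l ^ 2 * f x - up x U * f x := by ring
  rw [this, hE2]
  linarith

end

end Pool.Agent.helper9.HX
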